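import Pool.Agent.H2.For1
import Pool.Agent.H2.ForDefs
import Pool.Agent.H2.SphDefs

namespace Pool.Agent.Results.MP_cb4cd2_al.ForestSLP

open Finset MvPolynomial Pool.Agent.H2.Forest Pool.Agent.H2.Sph

variable {n : ℕ} {K : Type} [Field K]

lemma free {T : Finset (Finset (Fin n))} (hT : IsForest T) {V : Finset (Finset (Fin n))}
    (hV : V ⊆ T) (hne : V.Nonempty) : ∃ F ∈ V, ∀ s ⊆ F, s.Nonempty →
      (∃ G ∈ V.erase F, s ⊆ G) ∨ ∃ y ∈ s, ∀ G ∈ V, y ∈ G → G = F := by
  classical
  obtain ⟨F0, h0⟩ := hne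
  obtain ⟨F, hF, h⟩ := hT (V.filter (Conn T F0)) ((filter_subset _ _).trans hV)
    ⟨F0, mem_filter.2 ⟨h0, Relation.EqvGen.refl _⟩⟩ fun F hF G hG =>
      Relation.EqvGen.trans _ _ _ (Relation.EqvGen.symm _ _ (mem_filter.1 hF).2) (mem_filter.1 hG).2
  obtain ⟨hF1, hF2⟩ := mem_filter.1 hF
  have key : ∀ y ∈ F, ∀ G ∈ V, y ∈ G → G ∈ V.filter (Conn T F0) := fun y hy G hG hy' =>
    mem_filter.2 ⟨hG, Relation.EqvGen.trans _ _ _ hF2
      (Relation.EqvGen.rel _ _ ⟨hV hF1, hV hG, y, mem_inter.2 ⟨hy, hy'⟩⟩)⟩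
  refine ⟨F, hF1, fun s hs ⟨y, hy⟩ => ?_⟩
  rcases h with h | ⟨G, hG, hGF, h⟩
  · exact Or.inr ⟨y, hy, fun G hG hy' => mem_singleton.1 (h ▸ key y (hs hy) G hG hy')⟩
  · by_cases hsG : s ⊆ G
    · exact Or.inl ⟨G, mem_erase.2 ⟨hGF, (mem_filter.1 hG).1⟩, hsG⟩
    · obtain ⟨z, hz, hz'⟩ := not_subset.1 hsG
      refine Or.inr ⟨z, hz, fun G' hG' hz2 => ?_⟩
      by_contra hne
      exact hz' (mem_inter.1 (h G' (key z (hs hz) G' hG' hz2) hne
        (mem_inter.2 ⟨hs hz, hz2⟩))).2

lemma loc (F : Finset (Fin n)) (y : Fin n) (hy : y ∈ F) (g : Finset (Fin n) → K) (N : ℕ)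
    (hg : ∀ s, s.card = N → y ∈ s → ¬ s ⊆ F → g s = 0) (m : ℕ) :
    (∀ s, s.card + m = N → y ∈ s → ¬ s ⊆ F → (D univ)^[m] g s = 0) ∧
    ∀ r ⊆ F.erase y, r.card + 1 + m = N →
      (D univ)^[m] g (insert y r) = (D (F.erase y))^[m] (fun t => g (insert y t)) r := by
  induction m generalizing N with
  | zero => exact ⟨hg, fun _ _ _ => rfl⟩
  | succ m ih =>
    obtain ⟨i1, i2⟩ := ih N hg
    refine ⟨fun s hs hy' hF => ?_, fun r hr hc => ?_⟩
    · rw [Function.iterate_succ_apply']
      exact sum_eq_zero fun v hv => i1 _ (by rw [card_insert_of_notMem (mem_sdiff.1 hv).2]; omega)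
        (mem_insert_of_mem hy') fun h => hF ((subset_insert _ _).trans h)
    · have hyr : y ∉ r := fun h => notMem_erase y F (hr h)
      rw [Function.iterate_succ_apply', Function.iterate_succ_apply', D, D, eq_comm]
      refine sum_subset_zero_on_sdiff (fun v hv => ?_) (fun v hv => ?_) fun v hv => ?_
      · simp only [mem_sdiff, mem_erase, mem_univ, mem_insert] at hv ⊢; tauto
      · simp only [mem_sdiff, mem_erase, mem_univ, mem_insert] at hv
        refine i1 _ ?_ (by simp) fun h => ?_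
        · rw [card_insert_of_notMem (by simp only [mem_insert]; tauto), card_insert_of_notMem hyr]
          omega
        · have := h (mem_insert_self v _)
          tauto
      · rw [insert_comm, i2 _ (insert_subset (mem_sdiff.1 hv).1 hr)
          (by rw [card_insert_of_notMem (mem_sdiff.1 hv).2]; omega)]

lemma down [CharZero K] {T : Finset (Finset (Fin n))} (hT : IsForest T) {d i j : ℕ}
    (hd : ∀ F ∈ T, F.card = d) (hij : d + 1 ≤ 2 * i + j) (g : Finset (Fin n) → K)
    (h0 : ∀ t, t.card = i → (D univ)^[j] g t = 0) (V : Finset (Finset (Fin n))) : V ⊆ T →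
    (∀ s, s.card = i + j → (¬ ∃ G ∈ V, s ⊆ G) → g s = 0) → ∀ s, s.card = i + j → g s = 0 := by
  induction V using Finset.strongInduction with
  | H V ih =>
  intro hV hg
  rcases V.eq_empty_or_nonempty with rfl | hne
  · exact fun s hs => hg s hs (by simp)
  obtain ⟨F, hF, h⟩ := free hT hV hne
  refine ih _ (erase_ssubset hF) ((erase_subset _ _).trans hV) fun s hs hn => ?_
  by_cases hsF : s ⊆ F
  swap
  · refine hg s hs fun ⟨G, hG, h1⟩ => hn ⟨G, mem_erase.2 ⟨?_, hG⟩, h1⟩
    rintro rfl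
    exact hsF h1
  have hle := card_le_card hsF
  rw [hd F (hV hF)] at hle
  obtain ⟨y, hy, h1⟩ := (h s hsF (card_pos.1 (by omega))).resolve_left hn
  obtain ⟨i, rfl⟩ : ∃ e, i = e + 1 := ⟨i - 1, by omega⟩
  have h2 := (loc F y (hsF hy) g (i + 1 + j) (fun t ht hyt htF => hg t ht fun ⟨G, hG, h2⟩ =>
    htF (h1 G hG (h2 hyt) ▸ h2)) j).2
  have h3 := D_inj (F.erase y) i j (fun t => g (insert y t))
    (by rw [card_erase_of_mem (hsF hy), hd F (hV hF)]; omega) (fun r hr hc => by
      rw [← h2 r hr (by omega)]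
      exact h0 _ (by rw [card_insert_of_notMem fun h => notMem_erase y F (hr h), hc]))
    (s.erase y) (erase_subset_erase y hsF) (by rw [card_erase_of_mem hy]; omega)
  simpa [insert_erase hy] using h3

noncomputable def ind (s : Finset (Fin n)) : Fin n →₀ ℕ := ∑ v ∈ s, Finsupp.single v 1

lemma ind_apply (s : Finset (Fin n)) (v : Fin n) : ind s v = if v ∈ s then 1 else 0 := by
  simp [ind, Finsupp.finsetSum_apply, Finsupp.single_apply]

lemma prod_X (s : Finset (Fin n)) :
    (∏ v ∈ s, X v : MvPolynomial (Fin n) K) = monomial (ind s) 1 := by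
  rw [ind, monomial_sum_one]; rfl

lemma eq_ind {e : Fin n →₀ ℕ} (h : ∀ v, e v ≤ 1) : e = ind e.support := by
  ext v
  have := h v
  rw [ind_apply]
  split_ifs with hv
  · have := Finsupp.mem_support_iff.1 hv; omega
  · exact Finsupp.notMem_support_iff.1 hv

noncomputable def c (p : MvPolynomial (Fin n) K) (s : Finset (Fin n)) : K := coeff (ind s) p

lemma c_mul (p : MvPolynomial (Fin n) K) : c ((∑ v, X v) * p) = U (c p) := by
  funext s
  rw [c, sum_mul, coeff_sum, U, ← sum_subset (subset_univ s)]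
  · refine sum_congr rfl fun v hv => ?_
    rw [coeff_X_mul', if_pos (by simp [ind_apply, hv]), c]
    congr 1
    ext w
    by_cases h : w = v <;> simp [ind_apply, h, hv, Finsupp.single_apply, eq_comm]
  · intro v _ hv
    rw [coeff_X_mul', if_neg (by simp [ind_apply, hv])]

lemma c_pow (p : MvPolynomial (Fin n) K) (j : ℕ) : c ((∑ v, X v) ^ j * p) = U^[j] (c p) := by
  induction j with
  | zero => simp
  | succ j ih => rw [pow_succ', mul_assoc, c_mul, ih, Function.iterate_succ_apply']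

noncomputable abbrev J (K : Type) [Field K] (T : Finset (Finset (Fin n))) :
    Ideal (MvPolynomial (Fin n) K) :=
  srIdeal K (faces T) ⊔ Ideal.span (Set.range fun i => X i ^ 2)

noncomputable def KK (K : Type) [Field K] (T : Finset (Finset (Fin n))) :
    Ideal (MvPolynomial (Fin n) K) where
  carrier := {p | ∀ s ∈ faces T, coeff (ind s) p = 0}
  add_mem' := fun {p q} hp hq s hs => by rw [coeff_add, hp s hs, hq s hs, add_zero]
  zero_mem' := fun s _ => coeff_zero _
  smul_mem' := fun f p hp s ⟨F, hF, hs⟩ => by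
    rw [smul_eq_mul, coeff_mul]
    refine sum_eq_zero fun x hx => ?_
    have h1 : ∀ v, x.2 v ≤ ind s v := fun v => by
      rw [← Finset.HasAntidiagonal.mem_antidiagonal.1 hx]; simp
    have h2 := eq_ind (e := x.2) fun v => (h1 v).trans (by rw [ind_apply]; split_ifs <;> omega)
    rw [h2, hp _ ⟨F, hF, fun v hv => hs (by
      have := h1 v
      have := Finsupp.mem_support_iff.1 hv
      rw [ind_apply] at *
      by_contra h
      simp [h] at *
      omega)⟩, mul_zero]

lemma ind_inj {s t : Finset (Fin n)} (h : ind s = ind t) : s = t := by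
  ext v
  have := DFunLike.congr_fun h v
  simp only [ind_apply] at this
  by_cases h1 : v ∈ s <;> by_cases h2 : v ∈ t <;> simp_all

lemma J_le (T : Finset (Finset (Fin n))) : J K T ≤ KK K T := by
  refine sup_le (Ideal.span_le.2 ?_) (Ideal.span_le.2 ?_)
  · rintro _ ⟨F, hF, rfl⟩ s hs
    rw [prod_X, coeff_monomial, if_neg fun e => hF (by rw [ind_inj e]; exact hs)]
  · rintro _ ⟨i, rfl⟩ s _
    simp only [X_pow_eq_monomial]
    rw [coeff_monomial, if_neg]
    intro e
    have := DFunLike.congr_fun e i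
    rw [ind_apply] at this
    split_ifs at this <;> simp at this

lemma sq_mem (T : Finset (Finset (Fin n))) {e : Fin n →₀ ℕ} {v : Fin n} (h : 2 ≤ e v) (r : K) :
    monomial e r ∈ J K T := by
  refine Ideal.mem_sup_right (Ideal.mem_of_dvd _ ?_ (Ideal.subset_span ⟨v, rfl⟩))
  simp only [X_pow_eq_monomial]
  exact monomial_dvd_monomial.2 ⟨Or.inr (by simpa using h), one_dvd _⟩

lemma nonface_mem {T : Finset (Finset (Fin n))} {s : Finset (Fin n)} (h : s ∉ faces T) :
    monomial (ind s) (1 : K) ∈ J K T :=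
  Ideal.mem_sup_left (Ideal.subset_span ⟨s, h, (prod_X s).symm⟩)

lemma cases_mono {p : MvPolynomial (Fin n) K} {i : ℕ} (hp : p.IsHomogeneous i) {e : Fin n →₀ ℕ}
    (he : e ∈ p.support) : (∃ v, 2 ≤ e v) ∨ ∃ s : Finset (Fin n), s.card = i ∧ e = ind s := by
  by_cases h : ∃ v, 2 ≤ e v
  · exact Or.inl h
  push Not at h
  have h1 := eq_ind (e := e) fun v => by have := h v; omega
  refine Or.inr ⟨e.support, ?_, h1⟩
  rw [← hp (mem_support_iff.1 he), Finsupp.weight_apply, Finsupp.sum, card_eq_sum_ones]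
  simp only [Pi.one_apply, smul_eq_mul, mul_one]
  refine sum_congr rfl fun v hv => ?_
  have := h v
  have := Finsupp.mem_support_iff.1 hv
  omega

lemma phi_pow (T : Finset (Finset (Fin n))) (φ : Module.Dual K (MvPolynomial (Fin n) K))
    (h : ∀ p ∈ J K T, φ p = 0) (j : ℕ) : ∀ t : Finset (Fin n),
    φ ((∑ v, X v) ^ j * monomial (ind t) 1) = (D univ)^[j] (fun s => φ (monomial (ind s) 1)) t := by
  induction j with
  | zero => simp
  | succ j ih =>
    intro t
    rw [Function.iterate_succ_apply', D, pow_succ, mul_assoc, sum_mul, mul_sum, map_sum, eq_comm]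
    refine sum_subset_zero_on_sdiff sdiff_subset (fun v hv => ?_) fun v hv => ?_
    · refine h _ (Ideal.mul_mem_left _ _ ?_)
      rw [X, monomial_mul]
      refine sq_mem T (v := v) ?_ _
      have : v ∈ t := by simpa using hv
      simp [ind_apply, this]
    · rw [← ih, ← prod_X, ← prod_X, prod_insert (mem_sdiff.1 hv).2]

theorem result (K : Type) [Field K] [CharZero K] (n d : ℕ) (T : Finset (Finset (Fin n)))
    (hT : IsForest T) (hd : ∀ F ∈ T, F.card = d) (i j : ℕ) :
    MaxRank (srIdeal K (faces T) ⊔ Ideal.span (Set.range fun v => X v ^ 2))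
      ((∑ v, X v) ^ j) i (i + j) := by
  by_cases hij : 2 * i + j ≤ d
  · refine Or.inl fun p hp h => ?_
    rw [p.as_sum]
    refine sum_mem fun e he => ?_
    rcases cases_mono hp he with ⟨v, hv⟩ | ⟨s, hs, rfl⟩
    · exact sq_mem T hv _
    by_cases hf : s ∈ faces T
    · obtain ⟨F, hF, hsF⟩ := hf
      have := U_inj F i j (c p) (by rw [hd F hF]; exact hij) (fun t ht _ => by
        rw [← c_pow]; exact J_le T h t ⟨F, hF, ht⟩) s hsF hs
      exact absurd this (mem_support_iff.1 he)
    · rw [← mul_one (coeff _ _), ← C_mul_monomial]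
      exact Ideal.mul_mem_left _ _ (nonface_mem hf)
  · refine Or.inr fun p hp => ?_
    by_contra hc
    obtain ⟨φ, h1, h2⟩ := Submodule.exists_dual_map_eq_bot_of_notMem (x := p)
      (p := (J K T).restrictScalars K ⊔ (homogeneousSubmodule (Fin n) K i).map
        (LinearMap.mulLeft K ((∑ v, X v) ^ j))) (by
        intro hm
        obtain ⟨u, hu, _, ⟨f, hf, rfl⟩, e⟩ := Submodule.mem_sup.1 hm
        exact hc ⟨f, hf, by rw [← e, LinearMap.mulLeft_apply, add_sub_cancel_right]; exact hu⟩) inferInstance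
    have h3 : ∀ q ∈ (J K T).restrictScalars K ⊔ (homogeneousSubmodule (Fin n) K i).map
        (LinearMap.mulLeft K ((∑ v, X v) ^ j)), φ q = 0 := fun q hq =>
      (Submodule.mem_bot K).1 (h2 ▸ Submodule.mem_map_of_mem hq)
    have h4 : ∀ q ∈ J K T, φ q = 0 := fun q hq => h3 q (Submodule.mem_sup_left hq)
    have h5 := down hT hd (by omega : d + 1 ≤ 2 * i + j) (fun s => φ (monomial (ind s) 1))
      (fun t ht => by
        rw [← phi_pow T φ h4]
        refine h3 _ (Submodule.mem_sup_right ⟨_, ?_, rfl⟩)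
        rw [← prod_X, ← ht, card_eq_sum_ones]
        exact IsHomogeneous.prod _ _ _ fun v _ => isHomogeneous_X K v)
      T subset_rfl fun s _ hs => h4 _ (nonface_mem hs)
    apply h1
    rw [p.as_sum, map_sum]
    refine sum_eq_zero fun e he => ?_
    rcases cases_mono hp he with ⟨v, hv⟩ | ⟨s, hs, rfl⟩
    · exact h4 _ (sq_mem T hv _)
    · rw [← mul_one (coeff _ _), ← smul_eq_mul, ← smul_monomial, map_smul, h5 s hs, smul_zero]

end Pool.Agent.Results.MP_cb4cd2_al.ForestSLP
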